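import Pool.Agent.Run7.h386.PW.Iface

/-! Project PW (helper386), pieces DE1, DE2, DE3 (helper216): decoding of the labels. -/

set_option autoImplicit false

namespace Pool.Agent.Run7.h216.PW

open Finset Pool.Agent.Run7.h386.DE Pool.Agent.Run7.h386.DL Pool.Agent.Run7.h386.PW
open scoped Classical

theorem dvd_of_le {q : ℤ} {i j : ℕ} (h : i ≤ j) {x : ℤ} (hx : q ^ j ∣ x) : q ^ i ∣ x :=
  (pow_dvd_pow q h).trans hx

theorem t_DE1 (hL : S_LAB) : S_DE1 := by
  intro W q a J A₀ AB hq hA₀ hAB s hs w hw w' hw' r hr hr' hJ hJ' hlt hlt' hph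
  have h2 := (hL W Prod.snd q J AB hAB hq).2
  have e : w.2 - w'.2 = s * ((w'.1 - r.1) - (w.1 - r.1)) := by
    unfold ph at hph
    linear_combination hph
  rcases le_total (lev W Prod.fst q J A₀ w) (lev W Prod.fst q J A₀ w') with h | h
  · refine h2 w hw w' hw' hJ ?_
    have h3 : (q : ℤ) ^ (a + lev W Prod.fst q J A₀ w) ∣ w.2 - w'.2 := by
      rw [e, pow_add]
      exact mul_dvd_mul hs (dvd_sub (dvd_of_le h hr') hr)
    exact dvd_of_le (by omega) h3
  · refine (h2 w' hw' w hw hJ' ?_).symm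
    have h3 : (q : ℤ) ^ (a + lev W Prod.fst q J A₀ w') ∣ w.2 - w'.2 := by
      rw [e, pow_add]
      exact mul_dvd_mul hs (dvd_sub hr' (dvd_of_le h hr))
    have h4 : (q : ℤ) ^ (a + lev W Prod.fst q J A₀ w') ∣ w'.2 - w.2 := by
      rw [← neg_sub]
      exact (dvd_neg).2 h3
    exact dvd_of_le (by omega) h4

theorem t_DE2 (hL : S_LAB) : S_DE2 := by
  intro W q J AX AB hq hAX hAB s hs w hw w' hw' r hr hr' hJ hJ' hlt hlt' hph
  have h2 := (hL W Prod.fst q J AX hAX hq.one_le).2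
  have hcop : IsCoprime (q : ℤ) s := by
    rw [(Nat.prime_iff_prime_int.1 hq).irreducible.coprime_iff_not_dvd]
    exact hs
  have e : s * (w.1 - w'.1) = (w'.2 - r.2) - (w.2 - r.2) := by
    unfold ph at hph
    linear_combination hph
  rcases le_total (lev W Prod.snd q J AB w) (lev W Prod.snd q J AB w') with h | h
  · refine h2 w hw w' hw' hJ ?_
    have h3 : (q : ℤ) ^ (lev W Prod.snd q J AB w) ∣ s * (w.1 - w'.1) := by
      rw [e]
      exact dvd_sub (dvd_of_le h hr') hr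
    exact dvd_of_le (by omega) ((hcop.pow_left).dvd_of_dvd_mul_left h3)
  · refine (h2 w' hw' w hw hJ' ?_).symm
    have h3 : (q : ℤ) ^ (lev W Prod.snd q J AB w') ∣ s * (w.1 - w'.1) := by
      rw [e]
      exact dvd_sub hr' (dvd_of_le h hr)
    have h4 := (hcop.pow_left).dvd_of_dvd_mul_left h3
    have h5 : (q : ℤ) ^ (lev W Prod.snd q J AB w') ∣ w'.1 - w.1 := by
      rw [← neg_sub]
      exact (dvd_neg).2 h4
    exact dvd_of_le (by omega) h5

/-- one case of DE3 -/
theorem de3_aux {q a i i' : ℕ} (ha : 1 ≤ a) (hii : i ≤ i') {x x' r r' y y' s s' t : ℤ}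
    (hx : (q : ℤ) ^ (i + a) ∣ x - r) (hx' : (q : ℤ) ^ (i' + a) ∣ x' - r')
    (hy : (q : ℤ) ^ (i + a) ∣ y - s) (hy' : (q : ℤ) ^ (i' + a) ∣ y' - s')
    (h : t * x + y = t * x' + y')
    (hb : (q : ℤ) ^ (i + a) ∣ t * (r - r') + (s - s') → (q : ℤ) ^ (i + 1) ∣ r - r') :
    (q : ℤ) ^ (i + 1) ∣ x - x' := by
  have h1 : (q : ℤ) ^ (i + a) ∣ t * (r - r') + (s - s') := by
    have e : t * (r - r') + (s - s') =
        t * (x' - r') + (y' - s') - (t * (x - r) + (y - s)) := by linear_combination h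
    rw [e]
    exact dvd_sub (dvd_add ((dvd_of_le (by omega) hx').mul_left t) (dvd_of_le (by omega) hy'))
      (dvd_add (hx.mul_left t) hy)
  have h2 := hb h1
  have e : x - x' = (x - r) - (x' - r') + (r - r') := by ring
  rw [e]
  exact dvd_add (dvd_sub (dvd_of_le (by omega) hx) (dvd_of_le (by omega) hx')) h2

theorem t_DE3 (hL : S_LAB) : S_DE3 := by
  intro W q a J A₀ AX AB hq ha hA₀ R R' rep rep' hR hR' W' hW' hlev
  have h2 := (hL W Prod.fst q J A₀ hA₀ hq.one_le).2
  refine ⟨?_, ?_⟩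
  · intro T t ht hbad w hw w' hw' hph
    have hwW := hW' hw
    have hwW' := hW' hw'
    obtain ⟨l1, l2, l3⟩ := hlev w hw
    obtain ⟨l1', l2', l3'⟩ := hlev w' hw'
    have hb : ∀ u ∈ W, ∀ v ∈ W, ∀ i : ℕ,
        (q : ℤ) ^ (i + a) ∣ (t : ℤ) * ((rep u).1 - (rep v).1) + ((rep' u).2 - (rep' v).2) →
        (q : ℤ) ^ (i + 1) ∣ (rep u).1 - (rep v).1 := by
      intro u hu v hv i hi
      by_contra hc
      exact hbad (mem_filter.2 ⟨ht, rep u, (hR u hu).1, rep v, (hR v hv).1, rep' u, (hR' u hu).1,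
        rep' v, (hR' v hv).1, i, hc, hi⟩)
    rcases le_total (lev W Prod.fst q J A₀ w) (lev W Prod.fst q J A₀ w') with h | h
    · refine h2 w hwW w' hwW' l1 ?_
      exact de3_aux ha h (dvd_of_le l2 (hR w hwW).2) (dvd_of_le l2' (hR w' hwW').2)
        (dvd_of_le l3 (hR' w hwW).2) (dvd_of_le l3' (hR' w' hwW').2) hph (hb w hwW w' hwW' _)
    · refine (h2 w' hwW' w hwW l1' ?_).symm
      exact de3_aux ha h (dvd_of_le l2' (hR w' hwW').2) (dvd_of_le l2 (hR w hwW).2)
        (dvd_of_le l3' (hR' w' hwW').2) (dvd_of_le l3 (hR' w hwW).2) hph.symm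
        (hb w' hwW' w hwW _)
  · have key : ∀ w ∈ W', ∀ w' ∈ W', rep w = rep w' →
        lab W Prod.fst q J A₀ w = lab W Prod.fst q J A₀ w' := by
      intro w hw w' hw' hrr
      have hwW := hW' hw
      have hwW' := hW' hw'
      obtain ⟨l1, l2, l3⟩ := hlev w hw
      obtain ⟨l1', l2', l3'⟩ := hlev w' hw'
      have hx := dvd_of_le l2 (hR w hwW).2
      have hx' := dvd_of_le l2' (hR w' hwW').2
      rcases le_total (lev W Prod.fst q J A₀ w) (lev W Prod.fst q J A₀ w') with h | h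
      · refine h2 w hwW w' hwW' l1 ?_
        have e : w.1 - w'.1 = (w.1 - (rep w).1) - (w'.1 - (rep w').1) := by
          rw [hrr]
          ring
        rw [e]
        exact dvd_sub (dvd_of_le (by omega) hx) (dvd_of_le (by omega) hx')
      · refine (h2 w' hwW' w hwW l1' ?_).symm
        have e : w'.1 - w.1 = (w'.1 - (rep w').1) - (w.1 - (rep w).1) := by
          rw [hrr]
          ring
        rw [e]
        exact dvd_sub (dvd_of_le (by omega) hx') (dvd_of_le (by omega) hx)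
    have hch : ∀ l ∈ W'.image (lab W Prod.fst q J A₀), ∃ w ∈ W', lab W Prod.fst q J A₀ w = l :=
      fun l hl => mem_image.1 hl
    let g : ℕ × ℤ → ℤ × ℤ := fun l =>
      if h : l ∈ W'.image (lab W Prod.fst q J A₀) then rep (hch l h).choose else 0
    refine card_le_card_of_injOn g (fun l hl => ?_) fun l hl l' hl' hll => ?_
    · have hl1 : l ∈ W'.image (lab W Prod.fst q J A₀) := hl
      simp only [g, dif_pos hl1]
      exact (hR _ (hW' (hch l hl1).choose_spec.1)).1
    · have hl1 : l ∈ W'.image (lab W Prod.fst q J A₀) := hl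
      have hl2 : l' ∈ W'.image (lab W Prod.fst q J A₀) := hl'
      simp only [g, dif_pos hl1, dif_pos hl2] at hll
      have h3 := key _ (hch l hl1).choose_spec.1 _ (hch l' hl2).choose_spec.1 hll
      rw [(hch l hl1).choose_spec.2, (hch l' hl2).choose_spec.2] at h3
      exact h3

end Pool.Agent.Run7.h216.PW
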